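import Pool.Agent.MP_ac0662_al.Mg.Main

/-!
Every finite abelian `p`-group is the Schur multiplier (second homology, and Hopf quotient for
every free presentation) of a two-generator nonabelian abelian-by-cyclic finite `p`-group.
-/

namespace Pool.Agent.MP_ac0662_al

open groupHomology Finsupp Polynomial
open scoped IsMulCommutative commutatorElement

section hopf

variable {G E E' : Type} [Group G] [Group E] [Group E']

/-- The transgression is natural on cycles. -/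
lemma Phi_natural (π : E →* G) (hc : π.ker ≤ Subgroup.center E) (s : G → E)
    (hs : ∀ g, π (s g) = g) (π' : E' →* G) (hc' : π'.ker ≤ Subgroup.center E') (s' : G → E')
    (hs' : ∀ g, π' (s' g) = g) (l : E →* E') (hl : ∀ e, π' (l e) = π e)
    (x : G × G →₀ ℤ) (hx : dd2 G x = 0) :
    l ((Phi π hc s hs x).toMul : E) = ((Phi π' hc' s' hs' x).toMul : E') := by
  let c : G → Additive (Subgroup.center E') := fun g =>
    Additive.ofMul ⟨l (s g) * (s' g)⁻¹, hc' (by simp [MonoidHom.mem_ker, hl, hs, hs'])⟩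
  let C : (G →₀ ℤ) →ₗ[ℤ] Additive (Subgroup.center E') := Finsupp.linearCombination ℤ c
  have hfac : ∀ g h, l ((fac π hc s hs g h).toMul : E) =
      ((fac π' hc' s' hs' g h + (c h - c (g * h) + c g)).toMul : E') := by
    intro g h
    have e : fac π' hc' s' hs' g h + (c h - c (g * h) + c g) =
        c g + c h + fac π' hc' s' hs' g h - c (g * h) := by abel
    have h1 := Subgroup.mem_center_iff.mp (c h).toMul.2 (s' g)
    rw [e]
    simp only [c, fac, toMul_ofMul, toMul_add, toMul_sub, Subgroup.coe_mul, Subgroup.coe_div,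
      map_mul, map_inv] at h1 ⊢
    have h2 : l (s g) * (s' g)⁻¹ * (l (s h) * (s' h)⁻¹) * (s' g * s' h * (s' (g * h))⁻¹) =
        l (s g) * (s' g)⁻¹ * ((l (s h) * (s' h)⁻¹) * s' g) * s' h * (s' (g * h))⁻¹ := by
      group
    rw [h2, ← h1, div_eq_mul_inv]
    group
  have key : ∀ y : G × G →₀ ℤ, l ((Phi π hc s hs y).toMul : E) =
      ((Phi π' hc' s' hs' y + C (dd2 G y)).toMul : E') := by
    intro y
    induction y using Finsupp.induction_linear with
    | zero => simp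
    | add a b ha hb =>
      have e : Phi π' hc' s' hs' (a + b) + C (dd2 G (a + b)) =
          (Phi π' hc' s' hs' a + C (dd2 G a)) + (Phi π' hc' s' hs' b + C (dd2 G b)) := by
        rw [map_add, map_add, map_add]
        abel
      rw [e, map_add, toMul_add, Subgroup.coe_mul, map_mul, ha, hb, ← Subgroup.coe_mul,
        ← toMul_add]
    | single p n =>
      obtain ⟨g, h⟩ := p
      rw [Phi_single, Phi_single, toMul_zsmul, SubgroupClass.coe_zpow, map_zpow, hfac,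
        ← SubgroupClass.coe_zpow, ← toMul_zsmul, dd2_single]
      congr 2
      simp only [C, map_add, map_sub, linearCombination_single, smul_add, smul_sub]
  rw [key, hx, map_zero, add_zero]

/-- Hopf's formula. -/
theorem hopf {F : Type} [Group F] [IsFreeGroup F] (π : F →* G) (hπ : Function.Surjective π) :
    Nonempty (Multiplicative (H2 (Rep.trivial ℤ G ℤ)) ≃*
      (↥(π.ker ⊓ commutator F) ⧸
        (⁅π.ker, ⊤⁆ : Subgroup F).subgroupOf (π.ker ⊓ commutator F))) := by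
  let C : Subgroup F := ⁅π.ker, ⊤⁆
  have hC : C ≤ π.ker := Subgroup.commutator_le_left _ _
  let μ : F →* F ⧸ C := QuotientGroup.mk' C
  have hμ : Function.Surjective μ := QuotientGroup.mk'_surjective _
  let ρ : F ⧸ C →* G := QuotientGroup.lift C π hC
  have hρ : ∀ w, ρ (μ w) = π w := fun _ => rfl
  have hc : ρ.ker ≤ Subgroup.center (F ⧸ C) := by
    intro u hu
    obtain ⟨w, rfl⟩ := hμ u
    rw [Subgroup.mem_center_iff]
    intro v
    obtain ⟨z, rfl⟩ := hμ v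
    have h1 : μ ⁅w, z⁆ = 1 := (QuotientGroup.eq_one_iff _).2
      (Subgroup.commutator_mem_commutator hu (Subgroup.mem_top z))
    rw [map_commutatorElement, commutatorElement_eq_one_iff_mul_comm] at h1
    exact h1.symm
  obtain ⟨s₀, hs₀⟩ := hπ.hasRightInverse
  let s : G → F ⧸ C := fun g => μ (s₀ g)
  have hs : ∀ g, ρ (s g) = g := hs₀
  obtain ⟨χ, hχ⟩ := exists_hom ρ hc s hs
  let l₀ : F →* EU G := IsFreeGroup.lift fun a => ⟨0, π (IsFreeGroup.of a)⟩
  have hl₀ : (EU.proj G).comp l₀ = π := IsFreeGroup.ext_hom fun a => by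
    simp only [MonoidHom.comp_apply, l₀, IsFreeGroup.lift_of]
    rfl
  have hl₀' : ∀ w, EU.proj G (l₀ w) = π w := fun w => DFunLike.congr_fun hl₀ w
  have hCl : C ≤ l₀.ker := by
    rw [Subgroup.commutator_le]
    intro w hw z _
    have h1 : l₀ w ∈ Subgroup.center (EU G) := EU.central (by
      rw [MonoidHom.mem_ker, hl₀']
      exact hw)
    rw [MonoidHom.mem_ker, map_commutatorElement, commutatorElement_eq_one_iff_mul_comm]
    exact (Subgroup.mem_center_iff.mp h1 _).symm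
  let l : F ⧸ C →* EU G := QuotientGroup.lift C l₀ hCl
  have hl : ∀ e, EU.proj G (l e) = ρ e := by
    intro e
    obtain ⟨w, rfl⟩ := hμ e
    exact hl₀' w
  have hχi : Function.Injective χ := by
    rw [injective_iff_map_eq_zero]
    intro y hy
    obtain ⟨x, rfl⟩ := projH2_surjective y
    rw [hχ] at hy
    have h0 := Phi_natural ρ hc s hs (EU.proj G) EU.central (fun g => ⟨0, g⟩) (fun _ => rfl) l hl
      x.1 x.2
    have h1 := EU.Phi_u x.1
    rw [← h0, hy] at h1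
    rw [projH2_eq_zero_iff, ← Submodule.Quotient.mk_eq_zero]
    simpa using h1.symm
  let χ' : Multiplicative (H2 (Rep.trivial ℤ G ℤ)) →* F ⧸ C :=
    MonoidHom.mk' (fun y => ((χ y.toAdd).toMul : F ⧸ C)) (by
      intro a b
      simp)
  have hχ'i : Function.Injective χ' := by
    intro a b h
    exact Multiplicative.toAdd.injective (hχi (Additive.toMul.injective (Subtype.ext h)))
  let θ : ↥(π.ker ⊓ commutator F) →* F ⧸ C := μ.comp (π.ker ⊓ commutator F).subtype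
  have hθ : θ.ker = C.subgroupOf (π.ker ⊓ commutator F) := by
    ext w
    exact QuotientGroup.eq_one_iff _
  have hcm : (commutator F).map μ = commutator (F ⧸ C) := by
    rw [commutator, Subgroup.map_commutator, ← MonoidHom.range_eq_map,
      MonoidHom.range_eq_top.mpr hμ]
    rfl
  have hr : χ'.range = θ.range := by
    ext u
    constructor
    · rintro ⟨y, rfl⟩
      obtain ⟨x, hx⟩ := projH2_surjective y.toAdd
      have h1 : χ' y = ((Phi ρ hc s hs x.1).toMul : F ⧸ C) := by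
        change ((χ y.toAdd).toMul : F ⧸ C) = _
        rw [← hx, hχ]
      have h2 := Phi_mem_ker ρ hc s hs x.1
      have h3 := Phi_mem_commutator ρ hc s hs x.1 x.2
      rw [← hcm] at h3
      obtain ⟨w, hw, hw'⟩ := h3
      rw [← hw'] at h2
      exact ⟨⟨w, h2, hw⟩, hw'.trans h1.symm⟩
    · rintro ⟨⟨w, hw, hw'⟩, rfl⟩
      obtain ⟨x, hx, hx'⟩ := exists_cycle ρ hc s hs (μ w) hw (hcm ▸ ⟨w, hw', rfl⟩)
      refine ⟨.ofAdd (projH2 G ⟨x, hx⟩), ?_⟩
      change ((χ (projH2 G ⟨x, hx⟩)).toMul : F ⧸ C) = μ w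
      rw [hχ, hx']
  exact ⟨((MonoidHom.ofInjective hχ'i).trans (MulEquiv.subgroupCongr hr)).trans
    ((QuotientGroup.quotientKerEquivRange θ).symm.trans (QuotientGroup.quotientMulEquivOfEq hθ))⟩

end hopf

namespace Setup

variable {Λ A : Type} [CommRing Λ] [AddCommGroup A] {D : Datum Λ A} {d q : ℕ} {g : Λ}
  (S : Setup D d q g)

lemma closure_two (hgen : Gen D.t) :
    Subgroup.closure {S.Tq, S.io (.ofAdd 1)} = (⊤ : Subgroup (WW D ⧸ S.LL)) := by
  set H := Subgroup.closure {S.Tq, S.io (.ofAdd 1)}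
  have h1 : S.Tq ∈ H := Subgroup.subset_closure (by simp)
  have h2 : S.io (.ofAdd 1) ∈ H := Subgroup.subset_closure (by simp)
  have h3 : ∀ x : Λ, S.io (.ofAdd x) ∈ H := by
    intro x
    refine hgen (Subgroup.toAddSubgroup' (H.comap S.io)) (fun i => ?_) x
    change S.io (.ofAdd _) ∈ H
    have := S.conj_io i 1
    rw [mul_one] at this
    rw [← this]
    exact H.mul_mem (H.mul_mem (H.zpow_mem h1 i) h2) (H.inv_mem (H.zpow_mem h1 i))
  rw [eq_top_iff]
  intro u _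
  obtain ⟨x, i, rfl⟩ := S.gen u
  exact H.mul_mem (h3 x) (H.zpow_mem h1 i)

lemma not_comm (hqd : q * d ≠ 0) (hrs : ∀ F : Λ, (D.t - 1) * F = 0 → F = 0)
    (hu : ¬ IsUnit g) : S.Tq * S.io (.ofAdd 1) ≠ S.io (.ofAdd 1) * S.Tq := by
  refine fun h => hu ?_
  have h1 := S.conj_io 1 1
  rw [zpow_one, h, mul_inv_cancel_right, zpow_one, mul_one] at h1
  have h2 : S.io (.ofAdd ((D.t : Λ) - 1)) = 1 := by
    rw [ofAdd_sub, _root_.map_div, ← h1, div_self']
  obtain ⟨F, hF⟩ := S.io_eq_one hqd h2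
  have : F * g - 1 = 0 := hrs _ (by rw [mul_sub, ← hF, mul_one, sub_self])
  exact IsUnit.of_mul_eq_one_right F (sub_eq_zero.mp this)

lemma abelian_by_cyclic : ∃ (N : Subgroup (WW D ⧸ S.LL)) (_ : N.Normal),
    (∀ a ∈ N, ∀ b ∈ N, a * b = b * a) ∧ IsCyclic ((WW D ⧸ S.LL) ⧸ N) := by
  have hcomm : ∀ a ∈ S.io.range, ∀ b ∈ S.io.range, a * b = b * a := by
    rintro _ ⟨a, rfl⟩ _ ⟨b, rfl⟩
    rw [← map_mul, ← map_mul, mul_comm]
  have hn : S.io.range.Normal := ⟨by
    rintro _ ⟨a, rfl⟩ u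
    obtain ⟨x, i, rfl⟩ := S.gen u
    have h1 := S.conj_io i a.toAdd
    rw [ofAdd_toAdd] at h1
    have e : S.io (.ofAdd x) * S.Tq ^ i * S.io a * (S.io (.ofAdd x) * S.Tq ^ i)⁻¹ =
        S.io (.ofAdd x) * (S.Tq ^ i * S.io a * (S.Tq ^ i)⁻¹) * (S.io (.ofAdd x))⁻¹ := by group
    rw [e, h1]
    exact S.io.range.mul_mem (S.io.range.mul_mem ⟨_, rfl⟩ ⟨_, rfl⟩) (S.io.range.inv_mem ⟨_, rfl⟩)⟩
  refine ⟨S.io.range, hn, hcomm, ⟨⟨QuotientGroup.mk' _ S.Tq, fun u => ?_⟩⟩⟩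
  obtain ⟨w, rfl⟩ := QuotientGroup.mk'_surjective _ u
  obtain ⟨x, i, rfl⟩ := S.gen w
  have : QuotientGroup.mk' S.io.range (S.io (.ofAdd x)) = 1 :=
    (QuotientGroup.eq_one_iff _).2 ⟨_, rfl⟩
  exact ⟨i, by rw [map_mul, this, one_mul, map_zpow]⟩

end Setup

theorem main_aux' (p : ℕ) (hp : p.Prime) (A : Type) [AddCommGroup A] [Finite A] (e : ℕ)
    (he : ∀ a : A, p ^ e • a = 0) {Λ : Type} [CommRing Λ] (t : Λˣ) (d : ℕ) (hd : d = p ^ (e + 1))
    (hgen : Gen t) (hfree : Free t d) (hΛ : ∀ x : Λ, d • x = 0)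
    (hrs : ∀ F : Λ, ((t : Λ) - 1) * F = 0 → F = 0) :
    ∃ (G : Type) (_ : Group G), Finite G ∧ IsPGroup p G ∧
      (∃ x y : G, x * y ≠ y * x ∧ Subgroup.closure {x, y} = ⊤) ∧
      (∃ (N : Subgroup G) (_ : N.Normal), (∀ a ∈ N, ∀ b ∈ N, a * b = b * a) ∧ IsCyclic (G ⧸ N)) ∧
      Nonempty (A ≃+ (groupHomology.H2 (Rep.trivial ℤ G ℤ))) := by
  have hkill : ∀ m, p ^ e ∣ m → ∀ a : A, m • a = 0 := by
    rintro _ ⟨k, rfl⟩ a
    rw [mul_comm, mul_smul, he, smul_zero]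
  obtain ⟨n, P, Q, θ, hP, hQ, hθ, hker⟩ :=
    exists_two_gen p hp (monic_X_sub_C 2) (natDegree_X_sub_C 2) A fun a => ⟨e, he a⟩
  obtain ⟨β, hβ1, hβ2, hβ3⟩ := exists_beta t hgen hfree
    (hkill d (hd ▸ pow_dvd_pow p (Nat.le_succ e))) θ hθ hker
  let D : Datum Λ A := ⟨t, β, hβ1⟩
  obtain ⟨Y, hY⟩ := g_form t hP hQ
  set g := aeval (ww t) P * ((t : Λ) - 1) + aeval (ww t) Q with hg
  have hpn : IsNilpotent (p : Λ) := ⟨e + 1, by simpa [hd] using hΛ 1⟩
  have hpY : IsNilpotent ((p : Λ) * Y) := (Commute.all _ _).isNilpotent_mul_right hpn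
  obtain ⟨k, hk⟩ := exists_order t hp hpn hY
  obtain ⟨κ, hκ1, hκ2, hκ3⟩ := exists_kappa D d hgen hfree hΛ
    (hkill _ (hd ▸ pow_dvd_choose hp e)) g hβ2
  obtain ⟨ev, hev1, hev2, hev3⟩ := exists_ev t d hgen hfree hΛ
  let S : Setup D d (p ^ k) g := ⟨κ, ev, hκ1, hκ2, hκ3, hev1, hev2, hev3, hΛ, hβ2, hk⟩
  have hqd : p ^ k * d ≠ 0 := by have := hp.pos; rw [hd]; positivity
  have hrg : ∀ F, F * g = 0 → F = 0 := by
    rw [hY]
    refine reg_add_nilpotent (fun F hF => ?_) hpY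
    have h1 : ∀ (j : ℕ) (F : Λ), ((t : Λ) - 1) ^ j * F = 0 → F = 0 := by
      intro j
      induction j with
      | zero => simp
      | succ j ih => intro F hF; exact hrs _ (ih _ (by rw [← mul_assoc, ← pow_succ, hF]))
    rw [← mul_assoc, mul_comm] at hF
    exact ((t⁻¹.isUnit).pow n).mul_left_eq_zero.mp (h1 _ _ hF)
  have hu : ¬ IsUnit g := by
    intro hu
    have h1 : IsUnit (-((p : Λ) * Y) + g) :=
      hpY.neg.isUnit_add_right_of_commute hu (Commute.all _ _)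
    rw [hY, add_comm, add_neg_cancel_right, pow_succ, ← mul_assoc] at h1
    obtain ⟨F, hF⟩ := (isUnit_of_mul_isUnit_right h1).exists_right_inv
    have h2 : ev (((t : Λ) - 1) * F) = 0 := S.ev_s F
    have : Fact (1 < d) := ⟨hd ▸ Nat.one_lt_pow (Nat.succ_ne_zero e) hp.one_lt⟩
    rw [hF] at h2
    exact one_ne_zero (hev1.symm.trans h2)
  refine ⟨WW D ⧸ S.LL, inferInstance, S.finite hgen hqd, fun u => ⟨k + (e + 1) + (e + 1), ?_⟩,
    ⟨_, _, S.not_comm hqd hrs hu, S.closure_two hgen⟩, S.abelian_by_cyclic,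
    S.schur hgen hqd θ hθ hker hg hrg hrs hβ3⟩
  rw [pow_add, pow_add, ← hd]
  exact S.pow_eq_one u

end Pool.Agent.MP_ac0662_al

universe u

theorem Pool.Agent.Results.MP_ac0662_al.HopfForm.result (p : ℕ) (hp : p.Prime)
    (A : Type u) [AddCommGroup A] [Finite A] (hA : ∃ n : ℕ, Nat.card A = p ^ n) :
    ∃ (G : Type) (_ : Group G), Finite G ∧ (∃ n : ℕ, Nat.card G = p ^ n) ∧
      (∃ x y : G, x * y ≠ y * x ∧ Subgroup.closure {x, y} = ⊤) ∧
      (∃ (N : Subgroup G) (_ : N.Normal), (∀ a ∈ N, ∀ b ∈ N, a * b = b * a) ∧ IsCyclic (G ⧸ N)) ∧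
      Nonempty (A ≃+ groupHomology.H2 (Rep.trivial ℤ G ℤ)) ∧
      ∀ (F : Type) [Group F] [IsFreeGroup F] (π : F →* G), Function.Surjective π →
        Nonempty (Multiplicative A ≃*
          (↥(π.ker ⊓ commutator F) ⧸
            (⁅π.ker, ⊤⁆ : Subgroup F).subgroupOf (π.ker ⊓ commutator F))) := by
  obtain ⟨e, he⟩ := hA
  have : Fact p.Prime := ⟨hp⟩
  let φ : Shrink.{0} A ≃+ A := Shrink.addEquiv
  have : Finite (Shrink.{0} A) := Finite.of_equiv A φ.symm.toEquiv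
  have he' : ∀ a : Shrink.{0} A, p ^ e • a = 0 := fun a => by
    rw [← he, ← Nat.card_congr φ.toEquiv]
    exact card_nsmul_eq_zero'
  obtain ⟨G, iG, hfin, hpG, h2, hN, ⟨ψ⟩⟩ := Pool.Agent.MP_ac0662_al.main_aux' p hp (Shrink.{0} A) e
    he' (Pool.Agent.MP_ac0662_al.tU (p ^ (e + 1))) _ rfl (Pool.Agent.MP_ac0662_al.gen_tU _)
    (Pool.Agent.MP_ac0662_al.free_tU _) (Pool.Agent.MP_ac0662_al.nsmul_laurent _)
    (Pool.Agent.MP_ac0662_al.reg_tU _)
  refine ⟨G, iG, hfin, IsPGroup.iff_card.mp hpG, h2, hN, ⟨φ.symm.trans ψ⟩, fun F _ _ π hπ => ?_⟩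
  obtain ⟨ω⟩ := Pool.Agent.MP_ac0662_al.hopf π hπ
  exact ⟨(AddEquiv.toMultiplicative (φ.symm.trans ψ)).trans ω⟩
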